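import Pool.Agent.KS6_49.VN.HP

set_option autoImplicit false

/-!
The square zero extension of a polynomial ring `K[x,y,z,t]` by a free `K[y,z,t]`-module on which
`x` acts by a nilpotent matrix of linear forms. The matrix is abstract here: `Dat K` collects the
properties that are used.
-/

namespace Pool.Agent.KS6_49.VN

open MvPolynomial

/-- `K[y,z,t]` -/
abbrev BB (K : Type*) [Field K] := MvPolynomial (Fin 3) K

/-- `K[x,y,z,t]` -/
abbrev TT (K : Type*) [Field K] := MvPolynomial (Fin 4) K

/-- A nilpotent matrix `x` of linear forms in `y, z` (the variables `X 0, X 1`; `t` is `X 2`)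
whose kernel modulo `t` starts in degree `m`. -/
class Dat (K : Type*) [Field K] where
  ι : Type
  fι : Fintype ι
  dι : DecidableEq ι
  i0 : ι
  m : ℕ
  N : ℕ
  mN : m ≤ N
  x : (ι → BB K) →ₗ[BB K] (ι → BB K)
  nil : x ^ (N + 1) = 0
  homog : ∀ (w : ι → BB K) (d : ℤ), (∀ i, w i ∈ HP K (Fin 3) d) →
    ∀ i, x w i ∈ HP K (Fin 3) (d + 1)
  small : ∀ (w : ι → BB K) (δ : ℤ), δ < m → (∀ i, w i ∈ HP K (Fin 3) δ) →
    (∀ i, (X 2 : BB K) ∣ x w i) → ∀ i, (X 2 : BB K) ∣ w i
  top : ∃ (w : ι → BB K) (i : ι), ∀ b : BB K, (X 2 : BB K) ∣ b * (x ^ N) w i → (X 2 : BB K) ∣ b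
  kap : ι → BB K
  x_kap : x kap = 0
  kap_mem : ∀ i, kap i ∈ HP K (Fin 3) m
  kap_dvd : ∃ i, ∀ b : BB K, (X 2 : BB K) ∣ b * kap i → (X 2 : BB K) ∣ b

variable (K : Type*) [Field K] [Dat K]

/-- the index set of the basis of the module -/
def Ix : Type := Dat.ι K

instance : Fintype (Ix K) := Dat.fι

instance : DecidableEq (Ix K) := Dat.dι

/-- an index -/
def i0 : Ix K := Dat.i0

/-- the nilpotency exponent -/
def LL : ℕ := Dat.N K + 1

/-- the least degree of an element killed by `x` -/
def mm : ℕ := Dat.m K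

/-- the free module over `K[y,z,t]` -/
def MM := Ix K → MvPolynomial (Fin 3) K

noncomputable instance : AddCommGroup (MM K) := inferInstanceAs (AddCommGroup (Ix K → BB K))
noncomputable instance instModB : Module (BB K) (MM K) :=
  inferInstanceAs (Module (BB K) (Ix K → BB K))
noncomputable instance instModK : Module K (MM K) := inferInstanceAs (Module K (Ix K → BB K))
noncomputable instance : IsScalarTower K (BB K) (MM K) :=
  inferInstanceAs (IsScalarTower K (BB K) (Ix K → BB K))

variable {K}

@[simp] lemma MM.add_apply (m m' : MM K) (i : Ix K) : (m + m') i = m i + m' i := rfl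
@[simp] lemma MM.neg_apply (m : MM K) (i : Ix K) : (-m) i = -m i := rfl
@[simp] lemma MM.sub_apply (m m' : MM K) (i : Ix K) : (m - m') i = m i - m' i := rfl
@[simp] lemma MM.zero_apply (i : Ix K) : (0 : MM K) i = 0 := rfl
@[simp] lemma MM.smul_apply (b : BB K) (m : MM K) (i : Ix K) : (b • m) i = b * m i := rfl
@[simp] lemma MM.smulK_apply (b : K) (m : MM K) (i : Ix K) : (b • m) i = b • m i := rfl

@[ext] lemma MM.ext {m m' : MM K} (h : ∀ i, m i = m' i) : m = m' := funext h

/-- the action of `x` -/
noncomputable def xm : MM K →ₗ[BB K] MM K := Dat.x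

lemma xm_pow_LL : (xm : MM K →ₗ[BB K] MM K) ^ (LL K) = 0 := Dat.nil

variable (K)

/-- the action of `K[x,y,z,t]` -/
noncomputable def act : TT K →+* Module.End (BB K) (MM K) :=
  (Polynomial.aeval (xm : MM K →ₗ[BB K] MM K)).toRingHom.comp (finSuccEquiv K 3).toRingHom

lemma act_apply (p : TT K) : act K p = Polynomial.aeval (xm : MM K →ₗ[BB K] MM K)
    (finSuccEquiv K 3 p) := rfl

lemma act_X_zero : act K (X 0) = xm := by
  rw [act_apply, finSuccEquiv_X_zero, Polynomial.aeval_X]

lemma act_X_succ (j : Fin 3) : act K (X j.succ) = algebraMap (BB K) _ (X j) := by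
  rw [act_apply, finSuccEquiv_X_succ, Polynomial.aeval_C]

lemma act_C (a : K) : act K (C a) = algebraMap (BB K) _ (C a) := by
  rw [act_apply, finSuccEquiv_apply, eval₂Hom_C]
  simp

noncomputable instance instModT : Module (TT K) (MM K) := Module.compHom (MM K) (act K)

noncomputable instance instModTop : Module (TT K)ᵐᵒᵖ (MM K) :=
  Module.compHom (MM K) ((act K).comp ((RingEquiv.toOpposite (TT K)).symm : (TT K)ᵐᵒᵖ →+* TT K))

variable {K}

lemma smul_def (p : TT K) (m : MM K) : p • m = act K p m := rfl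

instance : IsCentralScalar (TT K) (MM K) := ⟨fun _ _ => rfl⟩

lemma X0_smul (m : MM K) : (X 0 : TT K) • m = xm m := by
  rw [smul_def, act_X_zero]

lemma Xs_smul (j : Fin 3) (m : MM K) : (X j.succ : TT K) • m = (X j : BB K) • m := by
  rw [smul_def, act_X_succ, Module.algebraMap_end_apply]

lemma C_smul (a : K) (m : MM K) : (C a : TT K) • m = a • m := by
  rw [smul_def, act_C, Module.algebraMap_end_apply]
  refine MM.ext fun i => ?_
  rw [MM.smul_apply, MM.smulK_apply, C_mul']

instance : IsScalarTower K (TT K) (MM K) := ⟨fun a p m => by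
  rw [← C_mul', mul_smul, C_smul]⟩

instance : IsScalarTower K (TT K)ᵐᵒᵖ (MM K) := ⟨fun a p m => by
  have h1 : (a • p) • m = (a • p.unop) • m := rfl
  have h2 : p • m = p.unop • m := rfl
  rw [h1, h2, smul_assoc]⟩

variable (K)

/-- the square zero extension -/
abbrev RR := TrivSqZeroExt (TT K) (MM K)

noncomputable example : CommRing (RR K) := inferInstance
noncomputable example : Algebra K (RR K) := inferInstance

end Pool.Agent.KS6_49.VN
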