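import Mathlib

set_option autoImplicit false

/-!
Homogeneous elements and division by powers of variables.
-/

namespace Pool.Agent.KS6_49.VN

open MvPolynomial Finset

section

variable {K : Type*} [Field K] {σ : Type*}

/-- the polynomials all whose monomials have degree `m` -/
def HP (K : Type*) [Field K] (σ : Type*) (m : ℤ) : Submodule K (MvPolynomial σ K) where
  carrier := {p | ∀ a, coeff a p ≠ 0 → (a.degree : ℤ) = m}
  add_mem' := by
    intro p q hp hq a ha
    by_cases h : coeff a p = 0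
    · refine hq a fun h' => ha ?_
      rw [coeff_add, h, h', add_zero]
    · exact hp a h
  zero_mem' := fun a ha => absurd (coeff_zero a) ha
  smul_mem' := by
    intro c p hp a ha
    refine hp a fun h => ha ?_
    rw [coeff_smul, h, smul_zero]

lemma mem_HP {p : MvPolynomial σ K} {m : ℤ} :
    p ∈ HP K σ m ↔ ∀ a, coeff a p ≠ 0 → (a.degree : ℤ) = m := Iff.rfl

lemma HP_neg {p : MvPolynomial σ K} {m : ℤ} (hm : m < 0) (hp : p ∈ HP K σ m) : p = 0 := by
  ext a
  rw [coeff_zero]
  by_contra h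
  have := hp a h
  omega

lemma monomial_mem_HP (a : σ →₀ ℕ) (c : K) : monomial a c ∈ HP K σ a.degree := by
  classical
  intro b hb
  rw [coeff_monomial] at hb
  split_ifs at hb with h
  · rw [h]
  · exact absurd rfl hb

lemma X_pow_mul_mem_HP {p : MvPolynomial σ K} {m : ℤ} (hp : p ∈ HP K σ m) (h : σ) (s : ℕ) :
    X h ^ s * p ∈ HP K σ (m + s) := by
  classical
  intro a ha
  rw [X_pow_eq_monomial, coeff_monomial_mul'] at ha
  split_ifs at ha with h1
  · have h2 := hp (a - Finsupp.single h s) (fun h' => ha (by rw [h', mul_zero]))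
    have h3 : a = (a - Finsupp.single h s) + Finsupp.single h s := (tsub_add_cancel_of_le h1).symm
    rw [h3, map_add, Finsupp.degree_single]
    push_cast
    omega
  · exact absurd rfl ha

lemma mul_mem_HP {p q : MvPolynomial σ K} {m l : ℤ} (hp : p ∈ HP K σ m) (hq : q ∈ HP K σ l) :
    p * q ∈ HP K σ (m + l) := by
  classical
  intro a ha
  rw [coeff_mul] at ha
  obtain ⟨⟨b, c⟩, hbc, h⟩ := exists_ne_zero_of_sum_ne_zero ha
  rw [HasAntidiagonal.mem_antidiagonal] at hbc
  have h1 := hp b (left_ne_zero_of_mul h)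
  have h2 := hq c (right_ne_zero_of_mul h)
  simp only at hbc
  rw [← hbc, map_add]
  push_cast
  omega

/-- division by `X h ^ s` -/
noncomputable def Dv (s : ℕ) (h : σ) : MvPolynomial σ K →+ MvPolynomial σ K where
  toFun p := p.divMonomial (Finsupp.single h s)
  map_zero' := zero_divMonomial _
  map_add' _ _ := add_divMonomial _ _ _

lemma coeff_Dv (s : ℕ) (h : σ) (p : MvPolynomial σ K) (a : σ →₀ ℕ) :
    coeff a (Dv s h p) = coeff (Finsupp.single h s + a) p := coeff_divMonomial _ _ _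

lemma Dv_X_pow_mul (s : ℕ) (h : σ) (p : MvPolynomial σ K) : Dv s h (X h ^ s * p) = p := by
  rw [X_pow_eq_monomial]
  exact divMonomial_monomial_mul _ _

lemma Dv_X_pow_mul_ne (s : ℕ) {b h : σ} (hb : b ≠ h) (p : MvPolynomial σ K) (u : ℕ) :
    Dv s h (X b ^ u * p) = X b ^ u * Dv s h p := by
  classical
  ext a
  rw [coeff_Dv, X_pow_eq_monomial, coeff_monomial_mul', coeff_monomial_mul', coeff_Dv]
  have h1 : Finsupp.single b u ≤ Finsupp.single h s + a ↔ Finsupp.single b u ≤ a := by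
    rw [Finsupp.single_le_iff, Finsupp.single_le_iff, Finsupp.add_apply,
      Finsupp.single_eq_of_ne hb, zero_add]
  by_cases h2 : Finsupp.single b u ≤ a
  · rw [if_pos (h1.2 h2), if_pos h2, add_tsub_assoc_of_le h2]
  · rw [if_neg (fun h => h2 (h1.1 h)), if_neg h2]

lemma Dv_comm (s : ℕ) (h h' : σ) (p : MvPolynomial σ K) :
    Dv s h (Dv s h' p) = Dv s h' (Dv s h p) := by
  ext a
  simp only [coeff_Dv]
  congr 1
  abel

lemma Dv_mem_HP {p : MvPolynomial σ K} {m : ℤ} (hp : p ∈ HP K σ m) (s : ℕ) (h : σ) :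
    Dv s h p ∈ HP K σ (m - s) := by
  intro a ha
  rw [coeff_Dv] at ha
  have := hp _ ha
  rw [map_add, Finsupp.degree_single] at this
  push_cast at this
  omega

lemma eq_zero_of_Dv [Fintype σ] {p : MvPolynomial σ K} {m : ℤ} (hp : p ∈ HP K σ m) {s : ℕ}
    (hs : (Fintype.card σ : ℤ) * (s - 1) < m) (h0 : ∀ h, Dv s h p = 0) : p = 0 := by
  classical
  ext a
  rw [coeff_zero]
  by_contra ha
  have h1 := hp a ha
  have h2 : ∀ h, (a h : ℤ) ≤ s - 1 := by
    intro h
    by_contra h3
    have h4 : s ≤ a h := by omega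
    have h5 := coeff_Dv s h p (a - Finsupp.single h s)
    rw [h0, coeff_zero, add_tsub_cancel_of_le (Finsupp.single_le_iff.2 h4)] at h5
    exact ha h5.symm
  have h3 : (a.degree : ℤ) ≤ ∑ _h : σ, ((s : ℤ) - 1) := by
    rw [Finsupp.degree_eq_sum]
    push_cast
    exact sum_le_sum fun h _ => h2 h
  rw [sum_const, card_univ, nsmul_eq_mul] at h3
  omega

/-- cancellation of a power of a variable -/
lemma mem_HP_of_X_pow_mul {p : MvPolynomial σ K} {m : ℤ} {h : σ} {k : ℕ}
    (hp : X h ^ k * p ∈ HP K σ m) : p ∈ HP K σ (m - k) := by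
  have := Dv_mem_HP hp k h
  rwa [Dv_X_pow_mul] at this

end


section

variable {K : Type*} [Field K]

lemma one_mem_HP {σ : Type*} : (1 : MvPolynomial σ K) ∈ HP K σ 0 := by
  have := monomial_mem_HP (K := K) (0 : σ →₀ ℕ) (1 : K)
  simpa using this

lemma X_mem_HP {σ : Type*} (j : σ) : (X j : MvPolynomial σ K) ∈ HP K σ 1 := by
  have := X_pow_mul_mem_HP (one_mem_HP (K := K) (σ := σ)) j 1
  simpa using this

lemma X_dvd_iff {σ : Type*} {i : σ} {p : MvPolynomial σ K} :
    X i ∣ p ↔ ∀ a : σ →₀ ℕ, a i = 0 → coeff a p = 0 := by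
  classical
  constructor
  · rintro ⟨q, rfl⟩ a ha
    rw [coeff_X_mul', if_neg]
    rw [Finsupp.mem_support_iff, not_not]
    exact ha
  · intro h
    rw [X_dvd_iff_modMonomial_eq_zero]
    ext a
    rw [coeff_zero]
    by_cases h1 : Finsupp.single i 1 ≤ a
    · exact coeff_modMonomial_of_le _ h1
    · rw [coeff_modMonomial_of_not_le _ h1]
      rw [Finsupp.single_le_iff, not_le] at h1
      exact h a (by omega)

lemma not_X_dvd_X {σ : Type*} {i j : σ} (h : i ≠ j) : ¬ (X i : MvPolynomial σ K) ∣ X j := by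
  rw [X_dvd_X]
  exact h

lemma X_dvd_of_mul {σ : Type*} {i j : σ} (h : i ≠ j) {k : ℕ} {p : MvPolynomial σ K}
    (hp : X i ∣ X j ^ k * p) : X i ∣ p := by
  rcases (X_prime (R := K) (i := i)).dvd_or_dvd hp with h1 | h1
  · exact absurd ((X_prime (R := K) (i := i)).dvd_of_dvd_pow h1) (not_X_dvd_X h)
  · exact h1

lemma X_dvd_of_two_mul (h2 : (2 : K) ≠ 0) {σ : Type*} {i : σ} {p : MvPolynomial σ K}
    (hp : X i ∣ 2 * p) : X i ∣ p := by
  have h3 : (2 : MvPolynomial σ K) = C 2 := (map_ofNat C 2).symm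
  rw [h3] at hp
  have h4 := dvd_mul_of_dvd_right hp (C (2⁻¹ : K))
  rwa [← mul_assoc, ← C_mul, inv_mul_cancel₀ h2, C_1, one_mul] at h4


end

end Pool.Agent.KS6_49.VN
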