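import Pool.Agent.KS6_49.VN.Dat

set_option autoImplicit false

/-!
For every `m ≥ 1` and every field of characteristic zero a nilpotent matrix of linear forms of size
`2 m + 1` whose kernel starts in degree `m`: the operator `(P, Q) ↦ (ℓ Q, δ P)` on the pairs of
binary forms of degrees `m` and `m - 1` in `s₀, s₁`, where `ℓ = y s₀ + z s₁` and
`δ = y ∂₁ - z ∂₀`. Here the forms are written as polynomials in `s = s₁ / s₀`.
-/

namespace Pool.Agent.KS6_49.VN

open MvPolynomial

namespace Osp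

variable {K : Type*} [Field K]

/-- the linear form `ℓ = y + z s` -/
noncomputable def ell (K : Type*) [Field K] : Polynomial (BB K) :=
  Polynomial.C (X 0) + Polynomial.C (X 1) * Polynomial.X

/-- the derivation `δ` on the forms of degree `a` -/
noncomputable def dl (a : ℤ) (P : Polynomial (BB K)) : Polynomial (BB K) :=
  ell K * Polynomial.derivative P - (a : Polynomial (BB K)) * (Polynomial.C (X 1) * P)

/-- `ℓ δ` -/
noncomputable def T (a : ℤ) (P : Polynomial (BB K)) : Polynomial (BB K) := ell K * dl a P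

lemma der_ell : Polynomial.derivative (ell K) = Polynomial.C (X 1) := by
  simp [ell]

lemma dl_ell (a : ℤ) (R : Polynomial (BB K)) : dl a (ell K * R) = ell K * dl (a - 1) R := by
  unfold dl
  rw [Polynomial.derivative_mul, der_ell]
  push_cast
  ring

lemma dl_ell_pow (k : ℕ) : ∀ (a : ℤ) (R : Polynomial (BB K)),
    dl a (ell K ^ k * R) = ell K ^ k * dl (a - k) R := by
  induction k with
  | zero => intro a R; simp
  | succ k ih =>
    intro a R
    have e : a - 1 - (k : ℤ) = a - ((k + 1 : ℕ) : ℤ) := by push_cast; ring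
    rw [pow_succ', mul_assoc, dl_ell, ih, e, mul_assoc]

lemma dl_C (c : BB K) : dl 0 (Polynomial.C c) = 0 := by
  simp [dl]

lemma coeff_ell_mul_zero (P : Polynomial (BB K)) : (ell K * P).coeff 0 = X 0 * P.coeff 0 := by
  simp [ell, add_mul, mul_assoc]

lemma coeff_ell_mul_succ (P : Polynomial (BB K)) (n : ℕ) :
    (ell K * P).coeff (n + 1) = X 0 * P.coeff (n + 1) + X 1 * P.coeff n := by
  simp [ell, add_mul, mul_assoc, Polynomial.coeff_X_mul]

lemma coeff_dl (a : ℤ) (P : Polynomial (BB K)) (n : ℕ) :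
    (dl a P).coeff n = ((n : BB K) + 1) * (X 0 * P.coeff (n + 1)) -
      ((a : BB K) - (n : BB K)) * (X 1 * P.coeff n) := by
  unfold dl
  rw [Polynomial.coeff_sub]
  have h2 : ((a : Polynomial (BB K)) * (Polynomial.C (X 1) * P)).coeff n =
      (a : BB K) * (X 1 * P.coeff n) := by
    rw [← Polynomial.C_eq_intCast, Polynomial.coeff_C_mul, Polynomial.coeff_C_mul]
  rw [h2]
  rcases n with _ | n
  · rw [coeff_ell_mul_zero, Polynomial.coeff_derivative]
    push_cast
    ring
  · rw [coeff_ell_mul_succ, Polynomial.coeff_derivative, Polynomial.coeff_derivative]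
    push_cast
    ring

lemma natDegree_dl {n : ℕ} {R : Polynomial (BB K)} (hR : R.natDegree ≤ n + 1) :
    (dl ((n : ℤ) + 1) R).natDegree ≤ n := by
  rw [Polynomial.natDegree_le_iff_coeff_eq_zero]
  intro N hN
  rw [coeff_dl]
  have h1 : R.coeff (N + 1) = 0 := Polynomial.coeff_eq_zero_of_natDegree_lt (by omega)
  rw [h1]
  rcases Nat.lt_or_ge (n + 1) N with h2 | h2
  · rw [Polynomial.coeff_eq_zero_of_natDegree_lt (by omega : R.natDegree < N)]
    ring
  · have h3 : N = n + 1 := by omega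
    subst h3
    push_cast
    ring

lemma iter_T (n : ℕ) : ∀ (k : ℕ) (R : Polynomial (BB K)), R.natDegree ≤ n →
    ∃ c : BB K, (T ((n : ℤ) + k))^[n] (ell K ^ k * R) = ell K ^ (k + n) * Polynomial.C c := by
  induction n with
  | zero =>
    intro k R hR
    refine ⟨R.coeff 0, ?_⟩
    rw [Function.iterate_zero, id_eq, add_zero,
      ← Polynomial.eq_C_of_natDegree_le_zero hR]
  | succ n ih =>
    intro k R hR
    rw [Function.iterate_succ_apply]
    have e : T (((n + 1 : ℕ) : ℤ) + k) (ell K ^ k * R) =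
        ell K ^ (k + 1) * dl ((n : ℤ) + 1) R := by
      unfold T
      have e1 : ((n + 1 : ℕ) : ℤ) + k - k = (n : ℤ) + 1 := by push_cast; ring
      rw [dl_ell_pow, e1, pow_succ']
      ring
    obtain ⟨c, hc⟩ := ih (k + 1) (dl ((n : ℤ) + 1) R) (natDegree_dl hR)
    refine ⟨c, ?_⟩
    have e2 : ((n + 1 : ℕ) : ℤ) + k = (n : ℤ) + ((k + 1 : ℕ) : ℤ) := by push_cast; ring
    rw [e, e2, hc]
    congr 2
    ring

lemma iter_T_one [CharZero K] (m : ℕ) : ∀ n ≤ m, ∃ c : K, c ≠ 0 ∧
    (T (m : ℤ))^[n] (1 : Polynomial (BB K)) =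
      ell K ^ n * Polynomial.C (C c * X 1 ^ n) := by
  intro n
  induction n with
  | zero => intro _; exact ⟨1, one_ne_zero, by simp⟩
  | succ n ih =>
    intro hn
    obtain ⟨c, hc, h⟩ := ih (by omega)
    refine ⟨-((m - n : ℕ) : K) * c, mul_ne_zero (neg_ne_zero.2 (by
      exact_mod_cast (by omega : m - n ≠ 0))) hc, ?_⟩
    rw [Function.iterate_succ_apply', h]
    unfold T
    rw [dl_ell_pow]
    have e : dl ((m : ℤ) - n) (Polynomial.C (C c * X 1 ^ n)) =
        Polynomial.C (C (-((m - n : ℕ) : K) * c) * X 1 ^ (n + 1) : BB K) := by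
      unfold dl
      rw [Polynomial.derivative_C, mul_zero, zero_sub, ← Polynomial.C_eq_intCast,
        ← Polynomial.C_mul, ← Polynomial.C_mul, ← Polynomial.C_neg]
      congr 1
      have e3 : (((m : ℤ) - n : ℤ) : BB K) = C ((m - n : ℕ) : K) := by
        rw [map_natCast]
        have : ((m : ℤ) - n : ℤ) = ((m - n : ℕ) : ℤ) := by omega
        rw [this, Int.cast_natCast]
      rw [e3, C_mul, C_neg]
      ring
    rw [e, pow_succ']
    ring

/-! ### coordinates -/

/-- the index set -/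
abbrev Id (m : ℕ) : Type := Fin (m + 1) ⊕ Fin m

variable {m : ℕ}

/-- coordinates of the first part -/
noncomputable def pc (w : Id m → BB K) (n : ℕ) : BB K := if h : n < m + 1 then w (Sum.inl ⟨n, h⟩) else 0

/-- coordinates of the second part -/
noncomputable def qc (w : Id m → BB K) (n : ℕ) : BB K := if h : n < m then w (Sum.inr ⟨n, h⟩) else 0

/-- shifted coordinates of the second part -/
noncomputable def qs (w : Id m → BB K) : ℕ → BB K
  | 0 => 0
  | n + 1 => qc w n

lemma pc_add (w w' : Id m → BB K) (n : ℕ) : pc (w + w') n = pc w n + pc w' n := by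
  unfold pc
  split_ifs
  · rfl
  · rw [add_zero]

lemma pc_smul (b : BB K) (w : Id m → BB K) (n : ℕ) : pc (b • w) n = b * pc w n := by
  unfold pc
  split_ifs
  · rfl
  · rw [mul_zero]

lemma qc_add (w w' : Id m → BB K) (n : ℕ) : qc (w + w') n = qc w n + qc w' n := by
  unfold qc
  split_ifs
  · rfl
  · rw [add_zero]

lemma qc_smul (b : BB K) (w : Id m → BB K) (n : ℕ) : qc (b • w) n = b * qc w n := by
  unfold qc
  split_ifs
  · rfl
  · rw [mul_zero]

lemma qs_add (w w' : Id m → BB K) (n : ℕ) : qs (w + w') n = qs w n + qs w' n := by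
  cases n with
  | zero => simp [qs]
  | succ n => exact qc_add w w' n

lemma qs_smul (b : BB K) (w : Id m → BB K) (n : ℕ) : qs (b • w) n = b * qs w n := by
  cases n with
  | zero => simp [qs]
  | succ n => exact qc_smul b w n

/-- the matrix -/
noncomputable def xx (K : Type*) [Field K] (m : ℕ) :
    (Id m → BB K) →ₗ[BB K] (Id m → BB K) where
  toFun w := fun i => match i with
    | Sum.inl i => X 0 * qc w i + X 1 * qs w i
    | Sum.inr j => (((j : ℕ) : BB K) + 1) * (X 0 * pc w (j + 1)) -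
        ((m : BB K) - ((j : ℕ) : BB K)) * (X 1 * pc w j)
  map_add' w w' := by
    funext i
    rcases i with i | j
    · show X 0 * qc (w + w') i + X 1 * qs (w + w') i = (X 0 * qc w i + X 1 * qs w i) +
        (X 0 * qc w' i + X 1 * qs w' i)
      rw [qc_add, qs_add]
      ring
    · show (((j : ℕ) : BB K) + 1) * (X 0 * pc (w + w') (j + 1)) -
        ((m : BB K) - ((j : ℕ) : BB K)) * (X 1 * pc (w + w') j) =
        ((((j : ℕ) : BB K) + 1) * (X 0 * pc w (j + 1)) -
        ((m : BB K) - ((j : ℕ) : BB K)) * (X 1 * pc w j)) +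
        ((((j : ℕ) : BB K) + 1) * (X 0 * pc w' (j + 1)) -
        ((m : BB K) - ((j : ℕ) : BB K)) * (X 1 * pc w' j))
      rw [pc_add, pc_add]
      ring
  map_smul' b w := by
    funext i
    rcases i with i | j
    · show X 0 * qc (b • w) i + X 1 * qs (b • w) i = b * (X 0 * qc w i + X 1 * qs w i)
      rw [qc_smul, qs_smul]
      ring
    · show (((j : ℕ) : BB K) + 1) * (X 0 * pc (b • w) (j + 1)) -
        ((m : BB K) - ((j : ℕ) : BB K)) * (X 1 * pc (b • w) j) =
        b * ((((j : ℕ) : BB K) + 1) * (X 0 * pc w (j + 1)) -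
        ((m : BB K) - ((j : ℕ) : BB K)) * (X 1 * pc w j))
      rw [pc_smul, pc_smul]
      ring

lemma xx_inl (w : Id m → BB K) (i : Fin (m + 1)) :
    xx K m w (Sum.inl i) = X 0 * qc w i + X 1 * qs w i := rfl

lemma xx_inr (w : Id m → BB K) (j : Fin m) :
    xx K m w (Sum.inr j) = (((j : ℕ) : BB K) + 1) * (X 0 * pc w (j + 1)) -
        ((m : BB K) - ((j : ℕ) : BB K)) * (X 1 * pc w j) := rfl

lemma pc_of_ge (w : Id m → BB K) {n : ℕ} (h : m < n) : pc w n = 0 := dif_neg (by omega)

lemma qc_of_ge (w : Id m → BB K) {n : ℕ} (h : m ≤ n) : qc w n = 0 := dif_neg (by omega)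

lemma pc_xx (w : Id m → BB K) (n : ℕ) : pc (xx K m w) n = X 0 * qc w n + X 1 * qs w n := by
  by_cases h : n < m + 1
  · rw [pc, dif_pos h, xx_inl]
  · rw [pc_of_ge _ (by omega), qc_of_ge _ (by omega)]
    obtain ⟨k, rfl⟩ : ∃ k, n = k + 1 := ⟨n - 1, by omega⟩
    show 0 = X 0 * 0 + X 1 * qc w k
    rw [qc_of_ge _ (by omega)]
    ring

lemma qc_xx (w : Id m → BB K) (n : ℕ) : qc (xx K m w) n =
    ((n : BB K) + 1) * (X 0 * pc w (n + 1)) - ((m : BB K) - (n : BB K)) * (X 1 * pc w n) := by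
  by_cases h : n < m
  · rw [qc, dif_pos h, xx_inr]
  · rw [qc_of_ge _ (by omega), pc_of_ge _ (by omega)]
    by_cases h2 : n = m
    · subst h2; ring
    · rw [pc_of_ge _ (by omega)]
      ring

/-- the first part as a polynomial -/
noncomputable def PP (w : Id m → BB K) : Polynomial (BB K) :=
  ∑ n ∈ Finset.range (m + 1), Polynomial.monomial n (pc w n)

/-- the second part as a polynomial -/
noncomputable def QQ (w : Id m → BB K) : Polynomial (BB K) :=
  ∑ n ∈ Finset.range m, Polynomial.monomial n (qc w n)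

lemma coeff_PP (w : Id m → BB K) (n : ℕ) : (PP w).coeff n = pc w n := by
  unfold PP
  rw [Polynomial.finsetSum_coeff]
  simp only [Polynomial.coeff_monomial]
  rw [Finset.sum_ite_eq' (Finset.range (m + 1)) n (fun n => pc w n)]
  split_ifs with h
  · rfl
  · rw [Finset.mem_range] at h
    rw [pc_of_ge _ (by omega)]

lemma coeff_QQ (w : Id m → BB K) (n : ℕ) : (QQ w).coeff n = qc w n := by
  unfold QQ
  rw [Polynomial.finsetSum_coeff]
  simp only [Polynomial.coeff_monomial]
  rw [Finset.sum_ite_eq' (Finset.range m) n (fun n => qc w n)]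
  split_ifs with h
  · rfl
  · rw [Finset.mem_range] at h
    rw [qc_of_ge _ (by omega)]

lemma PP_xx (w : Id m → BB K) : PP (xx K m w) = ell K * QQ w := by
  ext1 n
  rw [coeff_PP, pc_xx]
  rcases n with _ | n
  · rw [coeff_ell_mul_zero, coeff_QQ]
    show X 0 * qc w 0 + X 1 * 0 = _
    ring
  · rw [coeff_ell_mul_succ, coeff_QQ, coeff_QQ]
    rfl

lemma QQ_xx (w : Id m → BB K) : QQ (xx K m w) = dl (m : ℤ) (PP w) := by
  ext1 n
  rw [coeff_QQ, qc_xx, coeff_dl, coeff_PP, coeff_PP]
  push_cast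
  ring

lemma ext_PQ {w : Id m → BB K} (h1 : PP w = 0) (h2 : QQ w = 0) : w = 0 := by
  funext i
  rcases i with i | j
  · have h := coeff_PP w i
    rw [h1, Polynomial.coeff_zero, pc, dif_pos i.2] at h
    exact h.symm
  · have h := coeff_QQ w j
    rw [h2, Polynomial.coeff_zero, qc, dif_pos j.2] at h
    exact h.symm

lemma natDegree_PP (w : Id m → BB K) : (PP w).natDegree ≤ m := by
  rw [Polynomial.natDegree_le_iff_coeff_eq_zero]
  intro N hN
  rw [coeff_PP, pc_of_ge _ hN]

lemma PP_xx_pow (w : Id m → BB K) (n : ℕ) :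
    PP ((xx K m ^ (2 * n)) w) = (T (m : ℤ))^[n] (PP w) := by
  induction n with
  | zero => simp
  | succ n ih =>
    have e : 2 * (n + 1) = 2 * n + 1 + 1 := by ring
    rw [e, pow_succ', pow_succ', Module.End.mul_apply, Module.End.mul_apply, PP_xx, QQ_xx, ih,
      Function.iterate_succ_apply']
    rfl

lemma QQ_xx_pow (w : Id m → BB K) (n : ℕ) :
    QQ ((xx K m ^ (2 * n)) w) = (T ((m : ℤ) - 1))^[n] (QQ w) := by
  induction n with
  | zero => simp
  | succ n ih =>
    have e : 2 * (n + 1) = 2 * n + 1 + 1 := by ring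
    rw [e, pow_succ', pow_succ', Module.End.mul_apply, Module.End.mul_apply, QQ_xx, PP_xx,
      dl_ell, ih, Function.iterate_succ_apply']
    rfl

theorem xx_nil (K : Type*) [Field K] (m : ℕ) : xx K (m + 1) ^ (2 * (m + 1) + 1) = 0 := by
  refine LinearMap.ext fun w => ?_
  rw [pow_succ', Module.End.mul_apply, LinearMap.zero_apply]
  refine ext_PQ ?_ ?_
  · rw [PP_xx, QQ_xx_pow]
    have e : ((m + 1 : ℕ) : ℤ) - 1 = (m : ℤ) + (0 : ℕ) := by push_cast; ring
    rw [e]
    have hdeg : (QQ w).natDegree ≤ m := by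
      rw [Polynomial.natDegree_le_iff_coeff_eq_zero]
      intro N hN
      rw [coeff_QQ, qc_of_ge _ (by omega)]
    obtain ⟨c, hc⟩ := iter_T m 0 (QQ w) hdeg
    rw [pow_zero, one_mul, zero_add] at hc
    rw [Function.iterate_succ_apply', hc]
    unfold T
    have e2 : (m : ℤ) + (0 : ℕ) - m = 0 := by push_cast; ring
    rw [dl_ell_pow, e2, dl_C]
    ring
  · rw [QQ_xx, PP_xx_pow]
    obtain ⟨c, hc⟩ := iter_T (m + 1) 0 (PP w) (natDegree_PP w)
    rw [pow_zero, one_mul, zero_add] at hc
    have e : ((m + 1 : ℕ) : ℤ) = ((m + 1 : ℕ) : ℤ) + (0 : ℕ) := by push_cast; ring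
    rw [← e] at hc
    rw [hc, dl_ell_pow, sub_self, dl_C, mul_zero]

end Osp

end Pool.Agent.KS6_49.VN
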