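import Pool.Agent.KS6_49.VN.Inst

set_option autoImplicit false

/-!
The remaining properties of the nilpotent matrix, and the instance of `Dat`.
-/

namespace Pool.Agent.KS6_49.VN

open MvPolynomial

namespace Osp

variable {K : Type*} [Field K] {m : ℕ}

lemma X_mul_HP {p : BB K} {d : ℤ} (hp : p ∈ HP K (Fin 3) d) (h : Fin 3) :
    X h * p ∈ HP K (Fin 3) (d + 1) := by
  have := X_pow_mul_mem_HP hp h 1
  rwa [pow_one] at this

lemma pc_HP {w : Id m → BB K} {d : ℤ} (hw : ∀ i, w i ∈ HP K (Fin 3) d) (n : ℕ) :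
    pc w n ∈ HP K (Fin 3) d := by
  unfold pc
  split_ifs
  · exact hw _
  · exact Submodule.zero_mem _

lemma qc_HP {w : Id m → BB K} {d : ℤ} (hw : ∀ i, w i ∈ HP K (Fin 3) d) (n : ℕ) :
    qc w n ∈ HP K (Fin 3) d := by
  unfold qc
  split_ifs
  · exact hw _
  · exact Submodule.zero_mem _

lemma qs_HP {w : Id m → BB K} {d : ℤ} (hw : ∀ i, w i ∈ HP K (Fin 3) d) (n : ℕ) :
    qs w n ∈ HP K (Fin 3) d := by
  cases n with
  | zero => exact Submodule.zero_mem _
  | succ n => exact qc_HP hw n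

lemma C_mul_HP {p : BB K} {d : ℤ} (hp : p ∈ HP K (Fin 3) d) (c : K) :
    C c * p ∈ HP K (Fin 3) d := by
  rw [C_mul']
  exact Submodule.smul_mem _ _ hp

lemma homog (w : Id m → BB K) (d : ℤ) (hw : ∀ i, w i ∈ HP K (Fin 3) d) (i : Id m) :
    xx K m w i ∈ HP K (Fin 3) (d + 1) := by
  rcases i with i | j
  · rw [xx_inl]
    exact Submodule.add_mem _ (X_mul_HP (qc_HP hw _) 0) (X_mul_HP (qs_HP hw _) 1)
  · rw [xx_inr]
    have e1 : (((j : ℕ) : BB K) + 1) = C (((j : ℕ) : K) + 1) := by simp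
    have e2 : ((m : BB K) - ((j : ℕ) : BB K)) = C ((m : K) - ((j : ℕ) : K)) := by simp
    rw [e1, e2]
    exact Submodule.sub_mem _ (C_mul_HP (X_mul_HP (pc_HP hw _) 0) _)
      (C_mul_HP (X_mul_HP (pc_HP hw _) 1) _)

lemma dvd_of_C_mul {c : K} (hc : c ≠ 0) {p : BB K} (h : (X 2 : BB K) ∣ C c * p) :
    (X 2 : BB K) ∣ p := by
  have h4 := dvd_mul_of_dvd_right h (C (c⁻¹ : K))
  rwa [← mul_assoc, ← C_mul, inv_mul_cancel₀ hc, C_1, one_mul] at h4

section small

variable {w : Id m → BB K}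

lemma q_small (hx : ∀ i, (X 2 : BB K) ∣ xx K m w i) : ∀ n, (X 2 : BB K) ∣ qc w n := by
  intro n
  induction n with
  | zero =>
    have h := hx (Sum.inl ⟨0, Nat.succ_pos _⟩)
    rw [xx_inl] at h
    have h2 : (X 2 : BB K) ∣ X 0 * qc w 0 := by
      have e : X 0 * qc w 0 + X 1 * qs w 0 = (X 0 * qc w 0 : BB K) := by simp [qs]
      rw [← e]
      exact h
    have h3 : (X 2 : BB K) ∣ X 0 ^ 1 * qc w 0 := by rwa [pow_one]
    exact X_dvd_of_mul (by decide) h3
  | succ n ih =>
    by_cases hn : n + 1 < m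
    · have h := hx (Sum.inl ⟨n + 1, by omega⟩)
      rw [xx_inl] at h
      have h2 : (X 2 : BB K) ∣ X 0 * qc w (n + 1) :=
        (dvd_add_left (dvd_mul_of_dvd_right ih _)).1 h
      have h3 : (X 2 : BB K) ∣ X 0 ^ 1 * qc w (n + 1) := by rwa [pow_one]
      exact X_dvd_of_mul (by decide) h3
    · rw [qc_of_ge _ (by omega)]
      exact dvd_zero _

lemma p_rel [CharZero K] (hx : ∀ i, (X 2 : BB K) ∣ xx K m w i) : ∀ n ≤ m, ∃ c d : K, c ≠ 0 ∧ d ≠ 0 ∧
    (X 2 : BB K) ∣ C c * (X 0 ^ n * pc w n) - C d * (X 1 ^ n * pc w 0) := by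
  intro n
  induction n with
  | zero => intro _; exact ⟨1, 1, one_ne_zero, one_ne_zero, by simp⟩
  | succ n ih =>
    intro hn
    obtain ⟨c, d, hc, hd, h⟩ := ih (by omega)
    have h1 := hx (Sum.inr ⟨n, by omega⟩)
    rw [xx_inr] at h1
    have hmn : (m : K) - n ≠ 0 := by
      rw [sub_ne_zero]
      exact_mod_cast (by omega : m ≠ n)
    refine ⟨((n : K) + 1) * c, ((m : K) - n) * d, mul_ne_zero (by exact_mod_cast Nat.succ_ne_zero n) hc,
      mul_ne_zero hmn hd, ?_⟩
    have e1 : (C (((n : K) + 1) * c) : BB K) = ((n : BB K) + 1) * C c := by simp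
    have e2 : (C (((m : K) - n) * d) : BB K) = ((m : BB K) - (n : BB K)) * C d := by simp
    have e3 : (C (((n : K) + 1) * c) * (X 0 ^ (n + 1) * pc w (n + 1)) -
        C (((m : K) - n) * d) * (X 1 ^ (n + 1) * pc w 0) : BB K) =
        (C c * X 0 ^ n) * ((((n : ℕ) : BB K) + 1) * (X 0 * pc w (n + 1)) -
          ((m : BB K) - ((n : ℕ) : BB K)) * (X 1 * pc w n)) +
        (((m : BB K) - (n : BB K)) * X 1) * (C c * (X 0 ^ n * pc w n) -
          C d * (X 1 ^ n * pc w 0)) := by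
      rw [e1, e2]
      ring
    rw [e3]
    exact dvd_add (dvd_mul_of_dvd_right h1 _) (dvd_mul_of_dvd_right h _)

lemma small [CharZero K] (w : Id m → BB K) (δ : ℤ) (hδ : δ < m)
    (hw : ∀ i, w i ∈ HP K (Fin 3) δ) (hx : ∀ i, (X 2 : BB K) ∣ xx K m w i) (i : Id m) :
    (X 2 : BB K) ∣ w i := by
  classical
  obtain ⟨c, d, hc, hd, hcd⟩ := p_rel hx m le_rfl
  have hp0 : (X 2 : BB K) ∣ pc w 0 := by
    have h1 : (X 2 : BB K) ∣ C d * (X 1 ^ m * pc w 0) := by
      rw [X_dvd_iff]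
      intro a ha
      have h3 := X_dvd_iff.1 hcd a ha
      rw [coeff_sub, sub_eq_zero] at h3
      by_contra h4
      have h5 := h4
      rw [← h3] at h5
      rw [coeff_C_mul] at h4 h5
      have h4' := right_ne_zero_of_mul h4
      have h5' := right_ne_zero_of_mul h5
      have h6 : (a.degree : ℤ) = δ + m := X_pow_mul_mem_HP (pc_HP hw 0) 1 m a h4'
      have h7 : Finsupp.single 1 m ≤ a := by
        by_contra h8
        rw [X_pow_eq_monomial, coeff_monomial_mul', if_neg h8] at h4'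
        exact h4' rfl
      have h9 : Finsupp.single 0 m ≤ a := by
        by_contra h8
        rw [X_pow_eq_monomial, coeff_monomial_mul', if_neg h8] at h5'
        exact h5' rfl
      rw [Finsupp.single_le_iff] at h7 h9
      have h10 : a.degree = a 0 + a 1 + a 2 := by
        rw [Finsupp.degree_eq_sum, Fin.sum_univ_three]
      omega
    exact X_dvd_of_mul (i := 2) (j := 1) (k := m) (by decide) (dvd_of_C_mul hd h1)
  have hp : ∀ n, (X 2 : BB K) ∣ pc w n := by
    intro n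
    induction n with
    | zero => exact hp0
    | succ n ih =>
      by_cases hn : n < m
      · have h1 := hx (Sum.inr ⟨n, hn⟩)
        rw [xx_inr] at h1
        have h2 : (X 2 : BB K) ∣ (((n : ℕ) : BB K) + 1) * (X 0 * pc w (n + 1)) := by
          have h3 := dvd_add h1 (dvd_mul_of_dvd_right (dvd_mul_of_dvd_right ih (X 1))
            ((m : BB K) - ((n : ℕ) : BB K)))
          rwa [sub_add_cancel] at h3
        have e : (((n : ℕ) : BB K) + 1) = C (((n : ℕ) : K) + 1) := by simp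
        rw [e] at h2
        have h4 := dvd_of_C_mul (by exact_mod_cast Nat.succ_ne_zero n) h2
        have h3 : (X 2 : BB K) ∣ X 0 ^ 1 * pc w (n + 1) := by rwa [pow_one]
        exact X_dvd_of_mul (by decide) h3
      · rw [pc_of_ge _ (by omega)]
        exact dvd_zero _
  rcases i with i | j
  · have h := hp i
    rw [pc, dif_pos i.2] at h
    exact h
  · have h := q_small hx j
    rw [qc, dif_pos j.2] at h
    exact h

end small

lemma top [CharZero K] (m : ℕ) : ∃ (w : Id m → BB K) (i : Id m), ∀ b : BB K,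
    (X 2 : BB K) ∣ b * (xx K m ^ (2 * m)) w i → (X 2 : BB K) ∣ b := by
  classical
  let w : Id m → BB K := fun i => match i with
    | Sum.inl i => if (i : ℕ) = 0 then 1 else 0
    | Sum.inr _ => 0
  have hPP : PP w = 1 := by
    ext1 n
    rw [coeff_PP, Polynomial.coeff_one]
    by_cases h : n < m + 1
    · rw [pc, dif_pos h]
    · rw [pc_of_ge _ (by omega), if_neg (by omega)]
  obtain ⟨c, hc, h⟩ := iter_T_one (K := K) m m le_rfl
  rw [← hPP, ← PP_xx_pow] at h
  refine ⟨w, Sum.inl ⟨m, Nat.lt_succ_self m⟩, fun b hb => ?_⟩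
  have h1 : (xx K m ^ (2 * m)) w (Sum.inl ⟨m, Nat.lt_succ_self m⟩) =
      (PP ((xx K m ^ (2 * m)) w)).coeff m := by
    rw [coeff_PP, pc, dif_pos (Nat.lt_succ_self m)]
  have h2 : (ell K ^ m).coeff m = X 1 ^ m := by
    have h3 : (ell K).natDegree ≤ 1 := by
      rw [Polynomial.natDegree_le_iff_coeff_eq_zero]
      intro N hN
      obtain ⟨k, rfl⟩ : ∃ k, N = k + 2 := ⟨N - 2, by omega⟩
      simp [ell]
    have h4 := Polynomial.coeff_pow_of_natDegree_le (n := 1) (m := m) h3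
    rw [mul_one] at h4
    rw [h4]
    simp [ell]
  rw [h1, h, Polynomial.coeff_mul_C, h2] at hb
  have h5 : (X 2 : BB K) ∣ C c * (X 1 ^ (m + m) * b) := by
    have e : (C c * (X 1 ^ (m + m) * b) : BB K) = b * (X 1 ^ m * (C c * X 1 ^ m)) := by
      rw [pow_add]; ring
    rw [e]
    exact hb
  exact X_dvd_of_mul (i := 2) (j := 1) (k := m + m) (by decide) (dvd_of_C_mul hc h5)

/-- an element killed by the matrix -/
noncomputable def kap (K : Type*) [Field K] (m : ℕ) : Id m → BB K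
  | Sum.inl i => (ell K ^ m).coeff i
  | Sum.inr _ => 0

lemma natDegree_ell_pow (m : ℕ) : (ell K ^ m).natDegree ≤ m := by
  have h3 : (ell K).natDegree ≤ 1 := by
    rw [Polynomial.natDegree_le_iff_coeff_eq_zero]
    intro N hN
    obtain ⟨k, rfl⟩ : ∃ k, N = k + 2 := ⟨N - 2, by omega⟩
    simp [ell]
  have := Polynomial.natDegree_pow_le_of_le m h3
  rwa [mul_one] at this

lemma PP_kap : PP (kap K m) = ell K ^ m := by
  ext1 n
  rw [coeff_PP]
  by_cases h : n < m + 1
  · rw [pc, dif_pos h]; rfl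
  · rw [pc_of_ge _ (by omega), Polynomial.coeff_eq_zero_of_natDegree_lt
      ((natDegree_ell_pow m).trans_lt (by omega))]

lemma QQ_kap : QQ (kap K m) = 0 := by
  ext1 n
  rw [coeff_QQ, Polynomial.coeff_zero]
  unfold qc
  split_ifs
  · rfl
  · rfl

lemma xx_kap : xx K m (kap K m) = 0 := by
  refine ext_PQ ?_ ?_
  · rw [PP_xx, QQ_kap, mul_zero]
  · rw [QQ_xx, PP_kap]
    have h := dl_ell_pow (K := K) m m 1
    rw [mul_one] at h
    rw [h, sub_self]
    have h2 : dl 0 (1 : Polynomial (BB K)) = 0 := by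
      have := dl_C (1 : BB K)
      rwa [Polynomial.C_1] at this
    rw [h2, mul_zero]

lemma ell_pow_HP (m : ℕ) : ∀ n, (ell K ^ m).coeff n ∈ HP K (Fin 3) m := by
  induction m with
  | zero =>
    intro n
    rw [pow_zero, Polynomial.coeff_one]
    split_ifs
    · exact one_mem_HP
    · exact Submodule.zero_mem _
  | succ m ih =>
    intro n
    rw [pow_succ']
    have e : ((m + 1 : ℕ) : ℤ) = (m : ℤ) + 1 := by push_cast; ring
    rw [e]
    rcases n with _ | n
    · rw [coeff_ell_mul_zero]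
      exact X_mul_HP (ih 0) 0
    · rw [coeff_ell_mul_succ]
      exact Submodule.add_mem _ (X_mul_HP (ih _) 0) (X_mul_HP (ih _) 1)

lemma kap_HP (i : Id m) : kap K m i ∈ HP K (Fin 3) m := by
  rcases i with i | j
  · exact ell_pow_HP m i
  · exact Submodule.zero_mem _

lemma ell_pow_coeff_zero (m : ℕ) : (ell K ^ m).coeff 0 = X 0 ^ m := by
  induction m with
  | zero => simp
  | succ m ih => rw [pow_succ', coeff_ell_mul_zero, ih, pow_succ']

lemma kap_dvd' : ∃ i, ∀ b : BB K, (X 2 : BB K) ∣ b * kap K m i → (X 2 : BB K) ∣ b := by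
  refine ⟨Sum.inl ⟨0, Nat.succ_pos m⟩, fun b hb => ?_⟩
  have e : kap K m (Sum.inl ⟨0, Nat.succ_pos m⟩) = X 0 ^ m := ell_pow_coeff_zero m
  rw [e, mul_comm] at hb
  exact X_dvd_of_mul (i := 2) (j := 0) (k := m) (by decide) hb

/-- the instance -/
@[reducible] noncomputable def dat (K : Type*) [Field K] [CharZero K] (m : ℕ) : Dat K where
  ι := Id (m + 1)
  fι := inferInstance
  dι := inferInstance
  i0 := Sum.inl 0
  m := m + 1
  N := 2 * (m + 1)
  mN := by omega
  x := xx K (m + 1)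
  nil := xx_nil K m
  homog := homog
  small := fun w δ hδ hw hx i => small w δ hδ hw hx i
  top := top (m + 1)
  kap := kap K (m + 1)
  x_kap := xx_kap
  kap_mem := kap_HP
  kap_dvd := kap_dvd'

end Osp

end Pool.Agent.KS6_49.VN
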