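import Mathlib

set_option autoImplicit false

/-!
The Koszul cochain complex of a sequence of ring elements, and a homotopy which divides by some of
the elements.
-/

namespace Pool.Agent.KS6_49.VN

open Finset

variable {n : ℕ}

/-- sign -/
def sg (A : Type*) [CommRing A] (j : Fin n) (T : Finset (Fin n)) : A :=
  (-1) ^ (T.filter (· < j)).card

section

variable {A : Type*} [CommRing A]

lemma sg_mul_self (j : Fin n) (T : Finset (Fin n)) : sg A j T * sg A j T = 1 := by
  unfold sg
  rw [← pow_add, ← two_mul, pow_mul]
  norm_num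

lemma sg_insert {j v : Fin n} {T : Finset (Fin n)} (hv : v ∉ T) :
    sg A j (insert v T) = (if v < j then -1 else 1) * sg A j T := by
  unfold sg
  rw [filter_insert]
  split_ifs with h
  · rw [card_insert_of_notMem (fun h' => hv (mem_of_mem_filter _ h')), pow_succ]
    ring
  · rw [one_mul]

lemma sg_swap {i j : Fin n} {T : Finset (Fin n)} (hij : i ≠ j) (hi : i ∉ T) (hj : j ∉ T) :
    sg A j T * sg A i (insert j T) + sg A i T * sg A j (insert i T) = 0 := by
  rw [sg_insert hi, sg_insert hj]
  rcases lt_or_gt_of_ne hij with h | h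
  · rw [if_pos h, if_neg (not_lt.mpr h.le)]; ring
  · rw [if_neg (not_lt.mpr h.le), if_pos h]; ring

lemma map_sg_smul {W : Type*} [AddCommGroup W] [Module A W] (D : W →+ W) (j : Fin n)
    (T : Finset (Fin n)) (w : W) : D (sg A j T • w) = sg A j T • D w := by
  unfold sg
  rcases neg_one_pow_eq_or A ((T.filter (· < j)).card) with h | h <;> rw [h]
  · rw [one_smul, one_smul]
  · rw [neg_smul, neg_smul, one_smul, one_smul, map_neg]

end

variable {A : Type*} [CommRing A] {W : Type*} [AddCommGroup W] [Module A W]

/-- Koszul cochain differential of the sequence `a` with coefficients in `W`. -/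
def kz (a : Fin n → A) (c : Finset (Fin n) → W) (B : Finset (Fin n)) : W :=
  ∑ b ∈ B, (sg A b (B.erase b) * a b) • c (B.erase b)

lemma kz_sub (a : Fin n → A) (c c' : Finset (Fin n) → W) (B : Finset (Fin n)) :
    kz a (fun T => c T - c' T) B = kz a c B - kz a c' B := by
  unfold kz
  rw [← sum_sub_distrib]
  exact sum_congr rfl fun b _ => by rw [smul_sub]

lemma kz_add (a : Fin n → A) (c c' : Finset (Fin n) → W) (B : Finset (Fin n)) :
    kz a (fun T => c T + c' T) B = kz a c B + kz a c' B := by
  unfold kz
  rw [← sum_add_distrib]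
  exact sum_congr rfl fun b _ => by rw [smul_add]

lemma kz_kz (a : Fin n → A) (c : Finset (Fin n) → W) (B : Finset (Fin n)) :
    kz a (kz a c) B = 0 := by
  unfold kz
  simp_rw [Finset.smul_sum, smul_smul]
  rw [Finset.sum_sigma']
  refine Finset.sum_involution (fun x _ => ⟨x.2, x.1⟩) ?_ ?_ ?_ ?_
  · rintro ⟨b, j⟩ h
    simp only [Finset.mem_sigma, Finset.mem_erase] at h
    obtain ⟨hb, hjb, hj⟩ := h
    have h1 : B.erase b = insert j ((B.erase b).erase j) := by
      rw [insert_erase (mem_erase.2 ⟨hjb, hj⟩)]
    have h2 : B.erase j = insert b ((B.erase b).erase j) := by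
      rw [erase_right_comm, insert_erase (mem_erase.2 ⟨hjb.symm, hb⟩)]
    have h3 : (B.erase j).erase b = (B.erase b).erase j := erase_right_comm
    have hb' : b ∉ (B.erase b).erase j := fun h => (notMem_erase b B) (mem_of_mem_erase h)
    have hj' : j ∉ (B.erase b).erase j := notMem_erase _ _
    have := sg_swap (A := A) hjb hj' hb'
    simp only
    rw [h3, ← add_smul]
    have e : sg A b (B.erase b) * a b * (sg A j ((B.erase b).erase j) * a j) +
        sg A j (B.erase j) * a j * (sg A b ((B.erase b).erase j) * a b) = 0 := by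
      have e1 : sg A b (B.erase b) = sg A b (insert j ((B.erase b).erase j)) := by rw [← h1]
      have e2 : sg A j (B.erase j) = sg A j (insert b ((B.erase b).erase j)) := by rw [← h2]
      rw [e1, e2]
      linear_combination (a b * a j) * this
    rw [e, zero_smul]
  · rintro ⟨b, j⟩ h _ heq
    simp only [Finset.mem_sigma, Finset.mem_erase] at h
    have : j = b := by
      have := congrArg Sigma.fst heq
      simpa using this
    exact h.2.1 this
  · rintro ⟨b, j⟩ h
    simp only [Finset.mem_sigma, Finset.mem_erase] at h ⊢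
    exact ⟨h.2.2, fun hh => h.2.1 hh.symm, h.1⟩
  · rintro ⟨b, j⟩ h
    rfl

/-- homotopy -/
def hE (A : Type*) [CommRing A] {W : Type*} [AddCommGroup W] [Module A W] (h : Fin n) (D : W →+ W)
    (c : Finset (Fin n) → W) (B : Finset (Fin n)) : W :=
  if h ∈ B then 0 else sg A h B • D (c (insert h B))

lemma kz_hE (a : Fin n → A) (h : Fin n) (D : W →+ W) (hD : ∀ w, D (a h • w) = w)
    (hD' : ∀ b, b ≠ h → ∀ w, D (a b • w) = a b • D w) (c : Finset (Fin n) → W)
    (B : Finset (Fin n)) :
    kz a (hE A h D c) B + hE A h D (kz a c) B = if h ∈ B then a h • D (c B) else c B := by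
  by_cases hB : h ∈ B
  · have e1 : hE A h D (kz a c) B = 0 := by unfold hE; rw [if_pos hB]
    rw [e1, add_zero, if_pos hB]
    unfold kz
    rw [Finset.sum_eq_single h]
    · unfold hE
      rw [if_neg (notMem_erase _ _), insert_erase hB, smul_smul, mul_right_comm, sg_mul_self,
        one_mul]
    · intro b hb hbh
      unfold hE
      rw [if_pos (mem_erase.2 ⟨hbh.symm, hB⟩), smul_zero]
    · intro h'; exact absurd hB h'
  · rw [if_neg hB]
    have e1 : hE A h D (kz a c) B = sg A h B • D (kz a c (insert h B)) := by
      unfold hE; rw [if_neg hB]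
    have e2 : kz a c (insert h B) = sg A h B • (a h • c B) +
        ∑ b ∈ B, sg A b (insert h (B.erase b)) • (a b • c (insert h (B.erase b))) := by
      unfold kz
      rw [sum_insert hB, erase_insert hB, smul_smul]
      congr 1
      refine sum_congr rfl fun b hb => ?_
      have hbh : b ≠ h := fun e => hB (e ▸ hb)
      rw [erase_insert_of_ne hbh.symm, smul_smul]
    have e3 : D (kz a c (insert h B)) = sg A h B • c B +
        ∑ b ∈ B, sg A b (insert h (B.erase b)) • (a b • D (c (insert h (B.erase b)))) := by
      rw [e2, map_add, map_sg_smul, hD, map_sum]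
      congr 1
      refine sum_congr rfl fun b hb => ?_
      have hbh : b ≠ h := fun e => hB (e ▸ hb)
      rw [map_sg_smul, hD' b hbh]
    rw [e1, e3, smul_add, smul_smul, sg_mul_self, one_smul, smul_sum]
    unfold kz
    rw [add_left_comm, ← sum_add_distrib]
    have : ∑ b ∈ B, ((sg A b (B.erase b) * a b) • hE A h D c (B.erase b) +
        sg A h B • (sg A b (insert h (B.erase b)) • (a b • D (c (insert h (B.erase b)))))) = 0 := by
      refine sum_eq_zero fun b hb => ?_
      have hbh : b ≠ h := fun e => hB (e ▸ hb)
      have h1 : h ∉ B.erase b := fun h' => hB (mem_of_mem_erase h')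
      have h2 : b ∉ B.erase b := notMem_erase _ _
      unfold hE
      rw [if_neg h1, smul_smul, smul_smul, smul_smul, ← add_smul]
      have e4 : sg A h B = sg A h (insert b (B.erase b)) := by rw [insert_erase hb]
      have e5 : sg A b (B.erase b) * a b * sg A h (B.erase b) +
          sg A h B * sg A b (insert h (B.erase b)) * a b = 0 := by
        rw [e4, sg_insert h1, sg_insert h2]
        rcases lt_or_gt_of_ne hbh with h3 | h3
        · rw [if_pos h3, if_neg (not_lt.mpr h3.le)]; ring
        · rw [if_neg (not_lt.mpr h3.le), if_pos h3]; ring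
      rw [e5, zero_smul]
    rw [this, add_zero]

/-- A cocycle with values in `S` is a coboundary if one can divide by the elements `a h`, `h ∈ H`,
and if an element of `S B`, `B ⊇ H`, all whose quotients are zero is zero. -/
theorem kz_exact (a : Fin n → A) (H : Finset (Fin n)) (D : Fin n → (W →+ W))
    (hD : ∀ h ∈ H, ∀ w, D h (a h • w) = w)
    (hD' : ∀ h ∈ H, ∀ b, b ≠ h → ∀ w, D h (a b • w) = a b • D h w)
    (hDD : ∀ h ∈ H, ∀ h' ∈ H, ∀ w, D h (D h' w) = D h' (D h w))
    (S S' : Finset (Fin n) → AddSubgroup W)
    (hS : ∀ h ∈ H, ∀ B, h ∉ B → ∀ w ∈ S (insert h B), D h w ∈ S' B)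
    (hS' : ∀ h ∈ H, ∀ B, h ∉ B → ∀ w ∈ S' B, a h • w ∈ S (insert h B))
    (htop : ∀ B, H ⊆ B → ∀ w ∈ S B, (∀ h ∈ H, D h w = 0) → w = 0)
    (c : Finset (Fin n) → W) (hc : ∀ B, c B ∈ S B) (hk : ∀ B, kz a c B = 0) :
    ∃ b : Finset (Fin n) → W, (∀ B, b B ∈ S' B) ∧ ∀ B, kz a b B = c B := by
  have key : ∀ L : Finset (Fin n), L ⊆ H → ∃ b : Finset (Fin n) → W, (∀ B, b B ∈ S' B) ∧
      (∀ B, c B - kz a b B ∈ S B) ∧ (∀ B, ∀ h ∈ L, h ∉ B → c B - kz a b B = 0) ∧
      ∀ B, ∀ h ∈ L, D h (c B - kz a b B) = 0 := by
    intro L
    induction L using Finset.induction_on with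
    | empty =>
      intro _
      refine ⟨fun _ => 0, fun B => (S' B).zero_mem, fun B => ?_, by simp, by simp⟩
      have : kz a (fun _ => (0 : W)) B = 0 := by
        unfold kz
        exact sum_eq_zero fun b _ => smul_zero _
      rw [this, sub_zero]
      exact hc B
    | insert h L hL ih =>
      intro hLH
      obtain ⟨b, hb1, hb2, hb3, hb4⟩ := ih (fun x hx => hLH (mem_insert_of_mem hx))
      have hhH : h ∈ H := hLH (mem_insert_self _ _)
      set c' : Finset (Fin n) → W := fun B => c B - kz a b B with hc'
      have hk' : ∀ B, kz a c' B = 0 := by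
        intro B
        rw [hc', kz_sub, hk, kz_kz, sub_zero]
      have hz : kz a c' = fun _ => 0 := funext hk'
      have hid : ∀ B, c' B - kz a (hE A h (D h) c') B =
          if h ∈ B then c' B - a h • D h (c' B) else 0 := by
        intro B
        have := kz_hE a h (D h) (hD h hhH) (hD' h hhH) c' B
        have h0 : hE A h (D h) (kz a c') B = 0 := by
          rw [hz]
          unfold hE
          split_ifs
          · rfl
          · rw [map_zero, smul_zero]
        rw [h0, add_zero] at this
        rw [this]
        split_ifs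
        · rfl
        · rw [sub_self]
      refine ⟨fun B => b B + hE A h (D h) c' B, fun B => ?_, fun B => ?_, fun B => ?_,
        fun B => ?_⟩
      · refine (S' B).add_mem (hb1 B) ?_
        unfold hE
        split_ifs with hB
        · exact (S' B).zero_mem
        · have h1 := hS h hhH B hB _ (hb2 (insert h B))
          unfold sg
          rcases neg_one_pow_eq_or A ((B.filter (· < h)).card) with h2 | h2 <;> rw [h2]
          · rw [one_smul]; exact h1
          · rw [neg_smul, one_smul]; exact (S' B).neg_mem h1
      all_goals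
        have e : c B - kz a (fun B => b B + hE A h (D h) c' B) B =
            if h ∈ B then c' B - a h • D h (c' B) else 0 := by
          rw [kz_add, ← hid B, hc']
          simp only
          abel
      · rw [e]
        split_ifs with hB
        · refine (S B).sub_mem (hb2 B) ?_
          have h1 : D h (c' B) ∈ S' (B.erase h) := by
            refine hS h hhH _ (notMem_erase _ _) _ ?_
            rw [insert_erase hB]
            exact hb2 B
          have h2 := hS' h hhH _ (notMem_erase _ _) _ h1
          rwa [insert_erase hB] at h2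
        · exact (S B).zero_mem
      · intro j hj hjB
        rw [e]
        rcases mem_insert.1 hj with rfl | hj
        · rw [if_neg hjB]
        · have h1 : c' B = 0 := hb3 B j hj hjB
          rw [h1, map_zero, smul_zero, sub_zero, ite_self]
      · intro j hj
        rw [e]
        by_cases hB : h ∈ B
        · rw [if_pos hB]
          rcases mem_insert.1 hj with rfl | hj
          · rw [map_sub, hD j hhH, sub_self]
          · have hjH : j ∈ H := hLH (mem_insert_of_mem hj)
            have hjh : h ≠ j := fun e => hL (e ▸ hj)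
            have h1 : D j (c' B) = 0 := hb4 B j hj
            rw [map_sub, h1, hD' j hjH h hjh, hDD j hjH h hhH, h1, map_zero, smul_zero, sub_zero]
        · rw [if_neg hB, map_zero]
  obtain ⟨b, hb1, hb2, hb3, hb4⟩ := key H (Finset.Subset.refl _)
  refine ⟨b, hb1, fun B => ?_⟩
  have h0 : c B - kz a b B = 0 := by
    by_cases hB : H ⊆ B
    · exact htop B hB _ (hb2 B) (hb4 B)
    · rw [Finset.not_subset] at hB
      obtain ⟨h, hh, hhB⟩ := hB
      exact hb3 B h hh hhB
  exact (sub_eq_zero.1 h0).symm

end Pool.Agent.KS6_49.VN
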