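import Pool.Agent.KS6_49.VN.Final

set_option autoImplicit false

/-!
The regularity of the ideals `(t ^ k)` is `k + 1`.
-/

namespace Pool.Agent.KS6_49.VN

open MvPolynomial Finset TrivSqZeroExt

variable {K : Type*} [Field K] [Dat K]

/-- the index set of `y, z, t` -/
def B0 : Finset (Fin 4) := {1, 2, 3}

lemma prod_B0 : ∏ a ∈ B0, (X a : TT K) = up (X 0 * X 1 * X 2 : BB K) := by
  have e : ∀ j : Fin 3, up (X j : BB K) = X j.succ := fun j => rename_X _ _
  rw [map_mul, map_mul, e, e, e]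
  have h : B0 = {Fin.succ 0, Fin.succ 1, Fin.succ 2} := by decide
  rw [h, prod_insert (by decide), prod_insert (by decide), prod_singleton, mul_assoc]

/-- the cocycle at stage `s + 1` -/
noncomputable def coc (K : Type*) [Field K] [Dat K] (k s : ℕ) (A : Finset (Fin 4)) : RR K :=
  if A = B0 then inr ((X 0 * X 1 * X 2 : BB K) ^ s • ev K (i0 K)) * tk K k else 0

lemma up_pow_smul (b : BB K) (s : ℕ) (w : MM K) : (up b) ^ s • w = b ^ s • w := by
  rw [← map_pow, up_smul]

lemma coc_mem (k s : ℕ) : coc K k s ∈ cochains (GA K) (Ik K k) (fun _ => 1) (s + 1) 3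
    ((k : ℤ) - 2) := by
  intro A
  unfold coc
  split_ifs with h
  · refine ⟨mem_Ik.2 ⟨_, rfl⟩, fun h1 => absurd (by rw [h]; rfl) h1, ?_⟩
    rw [mul_tk_mem, mem_piece, fst_inr, snd_inr, sum_one_card]
    refine ⟨Submodule.zero_mem _, ?_⟩
    have hc : (A.card : ℤ) = 3 := by rw [h]; rfl
    rw [hc, ← up_pow_smul, ← prod_B0]
    have h1 := smul_mem_HM (prod_X_mem_HP (K := K) B0 s) (ev_mem (K := K) (i0 K))
    have hc' : (B0.card : ℤ) = 3 := rfl
    rw [hc'] at h1
    have e : (k : ℤ) - 2 + ((s + 1 : ℕ) : ℤ) * 3 - k - 1 = s * 3 + 0 := by push_cast; ring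
    rw [e]
    exact h1
  · exact ⟨Ideal.zero_mem _, fun _ => rfl, Submodule.zero_mem _⟩

lemma coc_cocycle (k s : ℕ) (hs : LL K ≤ s) (B : Finset (Fin 4)) :
    koszul (ff K) (s + 1) (coc K k s) B = 0 := by
  refine sum_eq_zero fun b hb => ?_
  unfold coc
  split_ifs with h
  · have hb0 : b = 0 := by
      have h1 : b ∉ B0 := by rw [← h]; exact notMem_erase _ _
      clear hb h
      revert b
      decide
    rw [hb0]
    have e : (ff K 0) ^ (s + 1) = inl (X 0 ^ (s + 1)) :=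
      (map_pow (inlHom (TT K) (MM K)) (X 0) (s + 1)).symm
    rw [e, ← mul_assoc (inl _), inl_mul_inr, X0_pow_smul (by omega), inr_zero, zero_mul, mul_zero]
  · rw [mul_zero, mul_zero]

/-- the exponent -/
noncomputable def ex (k m : ℕ) : Fin 3 →₀ ℕ :=
  Finsupp.single 0 m + Finsupp.single 1 m + Finsupp.single 2 (m + k)

lemma ex_zero (k m : ℕ) : ex k m 0 = m := by simp [ex]
lemma ex_one (k m : ℕ) : ex k m 1 = m := by simp [ex]
lemma ex_two (k m : ℕ) : ex k m 2 = m + k := by simp [ex]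

lemma coeff_ex (k m : ℕ) : coeff (ex k m) (X 2 ^ k * (X 0 * X 1 * X 2) ^ m : BB K) = 1 := by
  have e : (X 2 ^ k * (X 0 * X 1 * X 2) ^ m : BB K) = monomial (ex k m) 1 := by
    have h1 : (X 2 ^ k * (X 0 * X 1 * X 2) ^ m : BB K) = X 0 ^ m * X 1 ^ m * X 2 ^ (m + k) := by
      ring
    rw [h1, ex, X_pow_eq_monomial, X_pow_eq_monomial, X_pow_eq_monomial, monomial_mul,
      monomial_mul, one_mul, one_mul]
  rw [e, coeff_monomial, if_pos rfl]

lemma not_lczero (k : ℕ) : ¬ LCZero (GA K) (Ik K k) (ff K) (fun _ => 1) 3 ((k : ℤ) - 2) := by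
  classical
  intro hz
  obtain ⟨u, b, hb, hb'⟩ := hz (LL K + 1) (coc K k (LL K)) (coc_mem k (LL K))
    (coc_cocycle k (LL K) le_rfl)
  have h1 := hb' B0
  have h2 : (koszul (ff K) (LL K + 1 + u) b B0).snd (i0 K) = (transition (ff K) u (coc K k (LL K)) B0).snd (i0 K) := by
    rw [h1]
  have h3 : (transition (ff K) u (coc K k (LL K)) B0).snd (i0 K) =
      X 2 ^ k * (X 0 * X 1 * X 2) ^ (u + LL K) := by
    rw [transition_snd, prod_B0, up_pow_smul, MM.smul_apply, coc, if_pos rfl, mul_tk_snd, snd_inr,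
      MM.smul_apply, ev, if_pos rfl, mul_one]
    ring
  have h4 : coeff (ex k (u + LL K)) ((koszul (ff K) (LL K + 1 + u) b B0).snd (i0 K)) = 0 := by
    rw [koszul_snd]
    unfold kz
    have e : (∑ b_1 ∈ B0, (sg (TT K) b_1 (B0.erase b_1) * X b_1 ^ (LL K + 1 + u)) •
        (b (B0.erase b_1)).snd) (i0 K) = ∑ b_1 ∈ B0, ((sg (TT K) b_1 (B0.erase b_1) *
        X b_1 ^ (LL K + 1 + u)) • (b (B0.erase b_1)).snd) (i0 K) := Finset.sum_apply _ _ _
    rw [e, coeff_sum]
    refine sum_eq_zero fun j hj => ?_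
    have hj0 : j ≠ 0 := by
      rintro rfl
      revert hj
      decide
    obtain ⟨j, rfl⟩ := Fin.exists_succ_eq.2 hj0
    obtain ⟨r, hr⟩ := mem_Ik.1 (hb (B0.erase j.succ)).1
    rw [mul_smul, Xs_pow_smul, ← hr]
    have key : coeff (ex k (u + LL K)) (((X j : BB K) ^ (LL K + 1 + u) • (r * tk K k).snd) (i0 K)) = 0 := by
      rw [MM.smul_apply, mul_tk_snd]
      have h5 : ∀ (i : Fin 3) (m : ℕ) (p : BB K), ex k (u + LL K) i < m →
          coeff (ex k (u + LL K)) (X i ^ m * p) = 0 := by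
        intro i m p hm
        rw [X_pow_eq_monomial, coeff_monomial_mul', if_neg]
        rw [Finsupp.single_le_iff]
        omega
      fin_cases j
      · exact h5 0 (LL K + 1 + u) _ (by rw [ex_zero]; omega)
      · exact h5 1 (LL K + 1 + u) _ (by rw [ex_one]; omega)
      · change coeff (ex k (u + LL K)) (X 2 ^ (LL K + 1 + u) * (X 2 ^ k * r.snd (i0 K))) = 0
        rw [← mul_assoc, ← pow_add]
        exact h5 2 (LL K + 1 + u + k) _ (by rw [ex_two]; omega)
    unfold sg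
    rcases neg_one_pow_eq_or (TT K) (((B0.erase j.succ).filter (· < j.succ)).card) with h6 | h6
    · rw [h6, one_smul]; exact key
    · rw [h6, neg_smul, one_smul, MM.neg_apply, coeff_neg, key, neg_zero]
  rw [h2, h3, coeff_ex] at h4
  exact one_ne_zero h4

theorem regularity_eq (k : ℕ) :
    regularity (GA K) (Ik K k) (ff K) (fun _ => 1) = ((((k : ℤ) + 1 : ℤ) : ℝ) : EReal) := by
  refine le_antisymm (regularity_le k) (le_sSup ⟨3, (k : ℤ) - 2, not_lczero k, ?_⟩)
  have e : (k : ℤ) - 2 + 3 = (k : ℤ) + 1 := by ring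
  rw [e]

end Pool.Agent.KS6_49.VN
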