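import Pool.Agent.KS6_49.VN.Kos
import Pool.Agent.KS6_49.VN.Dat

set_option autoImplicit false

namespace Pool.Agent.KS6_49.VN

open MvPolynomial Finset

variable {K : Type*} [Field K] [Dat K]

/-- the elements of the module whose coordinates are homogeneous of degree `m` -/
def HM (K : Type*) [Field K] [Dat K] (m : ℤ) : Submodule K (MM K) where
  carrier := {w | ∀ i, w i ∈ HP K (Fin 3) m}
  add_mem' := fun hp hq i => Submodule.add_mem _ (hp i) (hq i)
  zero_mem' := fun _ => Submodule.zero_mem _
  smul_mem' := fun c _ hp i => Submodule.smul_mem _ c (hp i)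

lemma mem_HM {w : MM K} {m : ℤ} : w ∈ HM K m ↔ ∀ i, w i ∈ HP K (Fin 3) m := Iff.rfl

lemma X_mul_mem_HP {p : BB K} {m : ℤ} (hp : p ∈ HP K (Fin 3) m) (h : Fin 3) :
    X h * p ∈ HP K (Fin 3) (m + 1) := by
  have := X_pow_mul_mem_HP hp h 1
  rwa [pow_one] at this

lemma xm_mem_HM {w : MM K} {m : ℤ} (hw : w ∈ HM K m) : xm w ∈ HM K (m + 1) :=
  Dat.homog w m hw

lemma X_smul_mem_HM {w : MM K} {m : ℤ} (hw : w ∈ HM K m) (h : Fin 4) :
    (X h : TT K) • w ∈ HM K (m + 1) := by
  refine Fin.cases ?_ (fun j => ?_) h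
  · rw [X0_smul]; exact xm_mem_HM hw
  · rw [Xs_smul]
    intro i
    exact X_mul_mem_HP (hw i) j

lemma X_pow_smul_mem_HM {w : MM K} {m : ℤ} (hw : w ∈ HM K m) (h : Fin 4) (s : ℕ) :
    (X h ^ s : TT K) • w ∈ HM K (m + s) := by
  induction s with
  | zero => simpa using hw
  | succ s ih =>
    rw [pow_succ', mul_smul]
    have := X_smul_mem_HM ih h
    rw [Nat.cast_add, Nat.cast_one, ← add_assoc]
    exact this

lemma smul_mem_HM {w : MM K} {m l : ℤ} {p : TT K} (hp : p ∈ HP K (Fin 4) l) (hw : w ∈ HM K m) :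
    p • w ∈ HM K (l + m) := by
  classical
  have key : ∀ (a : Fin 4 →₀ ℕ) (m : ℤ) (w : MM K), w ∈ HM K m →
      (monomial a (1 : K) : TT K) • w ∈ HM K (a.degree + m) := by
    intro a
    induction a using Finsupp.induction_linear with
    | zero => intro m w hw; simpa using hw
    | add a b ha hb =>
      intro m w hw
      have e : (monomial (a + b) (1 : K) : TT K) = monomial a 1 * monomial b 1 := by
        rw [monomial_mul, mul_one]
      rw [e, mul_smul, map_add]
      have := ha _ _ (hb _ _ hw)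
      push_cast
      rwa [add_assoc]
    | single h s =>
      intro m w hw
      rw [← X_pow_eq_monomial, Finsupp.degree_single, add_comm]
      exact X_pow_smul_mem_HM hw h s
  rw [p.as_sum, sum_smul]
  refine Submodule.sum_mem _ fun a ha => ?_
  have h1 : (a.degree : ℤ) = l := hp a (mem_support_iff.1 ha)
  have e : (monomial a (coeff a p) : TT K) = (coeff a p) • monomial a (1 : K) := by
    rw [smul_monomial, smul_eq_mul, mul_one]
  rw [e, smul_assoc]
  have := key a m w hw
  rw [h1] at this
  exact Submodule.smul_mem _ _ this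

end Pool.Agent.KS6_49.VN
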