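import Pool.Agent.KS6_49.VN.Reg

set_option autoImplicit false

/-!
The v-number of the powers of `t`: small homogeneous elements.
-/

namespace Pool.Agent.KS6_49.VN

open MvPolynomial Finset TrivSqZeroExt

variable {K : Type*} [Field K] [Dat K]

/-- small homogeneous elements killed by `x` modulo `t` are divisible by `t` -/
lemma small_kernel {δ : ℤ} (hδ : δ < mm K) {w : MM K} (hw : w ∈ HM K δ)
    (hx : ∀ i, (X 2 : BB K) ∣ xm w i) (i : Ix K) : (X 2 : BB K) ∣ w i :=
  Dat.small w δ hδ hw hx i

lemma dat_top : ∃ (w : MM K) (i : Ix K), ∀ b : BB K,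
    (X 2 : BB K) ∣ b * ((xm ^ Dat.N K : Module.End (BB K) (MM K)) w) i → (X 2 : BB K) ∣ b :=
  Dat.top

/-- small polynomials which act as zero modulo `t` are divisible by `t` -/
lemma small_action {l : ℤ} (hl : l ≤ mm K) {p : TT K} (hp : p ∈ HP K (Fin 4) l)
    (h : ∀ w : MM K, ∀ i, (X 2 : BB K) ∣ (p • w) i) : (X 3 : TT K) ∣ p := by
  have hmN : mm K ≤ Dat.N K := Dat.mN
  set q := finSuccEquiv K 3 p with hq
  have hcoef : ∀ j, Dat.N K + 1 ≤ j → q.coeff j = 0 := by
    intro j hj
    ext a
    rw [coeff_zero]
    by_contra h1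
    rw [hq, finSuccEquiv_coeff_coeff] at h1
    have h2 := hp _ h1
    have h3 : j ≤ (Finsupp.cons j a).degree := by
      rw [Finsupp.degree_eq_sum, Fin.sum_univ_succ, Finsupp.cons_zero]
      exact Nat.le_add_right _ _
    omega
  have hdeg : q.natDegree < Dat.N K + 1 := by
    by_contra h1
    rw [not_lt] at h1
    have h2 : q ≠ 0 := by
      intro h3
      rw [h3, Polynomial.natDegree_zero] at h1
      omega
    exact (Polynomial.leadingCoeff_ne_zero.2 h2) (hcoef _ h1)
  have hact : ∀ w : MM K, p • w = ∑ j ∈ range (Dat.N K + 1), q.coeff j • ((xm ^ j : Module.End (BB K) (MM K)) w) := by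
    intro w
    rw [smul_def, act_apply, ← hq, Polynomial.aeval_eq_sum_range' hdeg, LinearMap.sum_apply]
    rfl
  obtain ⟨w0, i0, htop⟩ := dat_top (K := K)
  have hall : ∀ j, (X 2 : BB K) ∣ q.coeff j := by
    intro j
    induction j using Nat.strong_induction_on with
    | _ j ih =>
      rcases Nat.lt_or_ge (Dat.N K) j with hj | hj
      · rw [hcoef j hj]; exact dvd_zero _
      · refine htop _ ?_
        have h1 := h ((xm ^ (Dat.N K - j) : Module.End (BB K) (MM K)) w0) i0
        rw [hact] at h1
        have h2 : (∑ j' ∈ range (Dat.N K + 1), q.coeff j' •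
            ((xm ^ j' : Module.End (BB K) (MM K))
              ((xm ^ (Dat.N K - j) : Module.End (BB K) (MM K)) w0))) i0 =
            ∑ j' ∈ range (Dat.N K + 1), q.coeff j' *
              ((xm ^ (j' + (Dat.N K - j)) : Module.End (BB K) (MM K)) w0) i0 := by
          rw [show (∑ j' ∈ range (Dat.N K + 1), q.coeff j' •
            ((xm ^ j' : Module.End (BB K) (MM K))
              ((xm ^ (Dat.N K - j) : Module.End (BB K) (MM K)) w0))) i0 =
            ∑ j' ∈ range (Dat.N K + 1), (q.coeff j' •
            ((xm ^ j' : Module.End (BB K) (MM K))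
              ((xm ^ (Dat.N K - j) : Module.End (BB K) (MM K)) w0))) i0 from
              Finset.sum_apply _ _ _]
          refine sum_congr rfl fun j' _ => ?_
          rw [MM.smul_apply, pow_add]
          rfl
        rw [h2, ← add_sum_erase _ _ (mem_range.2 (Nat.lt_succ_of_le hj))] at h1
        have h3 : (X 2 : BB K) ∣ ∑ j' ∈ (range (Dat.N K + 1)).erase j, q.coeff j' *
              ((xm ^ (j' + (Dat.N K - j)) : Module.End (BB K) (MM K)) w0) i0 := by
          refine dvd_sum fun j' hj' => ?_
          rw [mem_erase] at hj'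
          rcases Nat.lt_or_ge j' j with h4 | h4
          · exact dvd_mul_of_dvd_left (ih j' h4) _
          · have h5 : LL K ≤ j' + (Dat.N K - j) := by
              have := hj'.1
              unfold LL
              omega
            obtain ⟨v, hv⟩ := Nat.exists_eq_add_of_le h5
            rw [hv, pow_add, xm_pow_LL, zero_mul]
            show (X 2 : BB K) ∣ q.coeff j' * 0
            rw [mul_zero]
            exact dvd_zero _
        have h4 := (dvd_add_left h3).1 h1
        have e : j + (Dat.N K - j) = Dat.N K := by omega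
        rw [e] at h4
        exact h4
  have hdvd : Polynomial.C (X 2 : BB K) ∣ q := by
    rw [Polynomial.C_dvd_iff_dvd_coeff]
    exact hall
  have e3 : finSuccEquiv K 3 (X 3) = Polynomial.C (X 2 : BB K) :=
    finSuccEquiv_X_succ (j := (2 : Fin 3))
  rw [← e3, hq] at hdvd
  have := map_dvd (finSuccEquiv K 3).symm hdvd
  rwa [AlgEquiv.symm_apply_apply, AlgEquiv.symm_apply_apply] at this

end Pool.Agent.KS6_49.VN
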